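import Pool.Agent.Helper76.ND.StC

/-!
# Project ND: module Gen (generating function of the negative binomial laws)
-/

set_option autoImplicit false

noncomputable section

namespace Pool.Agent.Helper80.ND

open Pool.Agent.Helper76.ND Finset

/-- **StGen** -/
theorem hGen (hCv : StCv) : StGen := by
  have hrec := hCv.1
  intro n K z hz0 hz2
  have h2z : 0 < 2 - z := by linarith
  induction n generalizing K with
  | zero =>
    rw [pow_zero]
    cases K with
    | zero => simp
    | succ K =>
      rw [sum_range_succ']
      have h0 : ∑ s ∈ range K, qs 0 (s + 1) * z ^ (s + 1) = 0 := by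
        apply sum_eq_zero
        intro s _
        have : qs 0 (s + 1) = 0 := rfl
        rw [this, zero_mul]
      have h1 : qs 0 0 = 1 := rfl
      rw [h0, h1]
      simp
  | succ n ih =>
    cases K with
    | zero =>
      rw [range_zero, sum_empty]
      positivity
    | succ K =>
      set A := ∑ s ∈ range (K + 1), qs (n + 1) s * z ^ s with hA
      set A' := ∑ s ∈ range K, qs (n + 1) s * z ^ s with hA'
      set F := ∑ s ∈ range K, qs n s * z ^ s with hF
      have hle : A' ≤ A := by
        rw [hA, sum_range_succ]
        have : 0 ≤ qs (n + 1) K * z ^ K := mul_nonneg (qs_nonneg _ _) (by positivity)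
        linarith
      have heq : A = z / 2 * (A' + F) := by
        rw [hA, sum_range_succ']
        have h1 : qs (n + 1) 0 = 0 := rfl
        rw [h1, zero_mul, add_zero, hA', hF, ← sum_add_distrib, mul_sum]
        apply sum_congr rfl
        intro s _
        rw [hrec n s, pow_succ]
        ring
      have hF' : F ≤ (z / (2 - z)) ^ n := ih K
      have hmain : A * (2 - z) ≤ z * F := by nlinarith
      have hA1 : A ≤ z / (2 - z) * F := by
        rw [div_mul_eq_mul_div, le_div_iff₀ h2z]
        exact hmain
      have hzz : 0 ≤ z / (2 - z) := by positivity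
      calc A ≤ z / (2 - z) * F := hA1
        _ ≤ z / (2 - z) * (z / (2 - z)) ^ n := mul_le_mul_of_nonneg_left hF' hzz
        _ = (z / (2 - z)) ^ (n + 1) := by rw [pow_succ]; ring

end Pool.Agent.Helper80.ND
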